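import Mathlib
import Pool.Agent.Y817.ISO.Stm
import Pool.Agent.H665Simp.P_der_iff

set_option autoImplicit false

/-!
Isomorphism of finitely presented groups is computably enumerable.
-/

namespace Pool.Agent.Y858.ISO.RE

open Pool.Agent.H665Simp Pool.Agent.Y817.ISO

/-! ### Codes: comparison of the two kinds of presentations -/

/-- restriction of the letters -/
def cut (K : ℕ) : FreeGroup ℕ →* FreeGroup (Fin K) :=
  FreeGroup.lift (fun i => if h : i < K then FreeGroup.of ⟨i, h⟩ else 1)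

theorem cut_mk (K : ℕ) (w : Wd) : cut K (FreeGroup.mk w) = FreeGroup.mk
    (w.filterMap (fun q => if h : q.1 < K then some ((⟨q.1, h⟩ : Fin K), q.2) else none)) := by
  induction w with
  | nil =>
    rw [List.filterMap_nil, ← FreeGroup.one_eq_mk, ← FreeGroup.one_eq_mk, map_one]
  | cons l w ih =>
    have h1 : FreeGroup.mk (l :: w) = FreeGroup.mk [l] * FreeGroup.mk w := by
      rw [FreeGroup.mul_mk]; rfl
    rw [h1, map_mul, ih]
    obtain ⟨i, b⟩ := l
    have h3 : cut K (FreeGroup.of i) = if h : i < K then FreeGroup.of ⟨i, h⟩ else 1 := by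
      unfold cut
      rw [FreeGroup.lift_apply_of]
    have h2 : (FreeGroup.mk [(i, b)] : FreeGroup ℕ) = if b = true then FreeGroup.of i
        else (FreeGroup.of i)⁻¹ := by
      cases b <;> simp [FreeGroup.of, FreeGroup.inv_mk, FreeGroup.invRev]
    by_cases hi : i < K
    · rw [List.filterMap_cons_some (b := ((⟨i, hi⟩ : Fin K), b)) (by simp [hi])]
      rw [dif_pos hi] at h3
      have h5 : ∀ t : List (Fin K × Bool), (FreeGroup.mk (((⟨i, hi⟩ : Fin K), b) :: t)) =
        FreeGroup.mk [((⟨i, hi⟩ : Fin K), b)] * FreeGroup.mk t := by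
        intro t; rw [FreeGroup.mul_mk]; rfl
      rw [h5, h2]
      congr 1
      cases b
      · rw [if_neg (by simp), map_inv, h3]
        simp [FreeGroup.of, FreeGroup.inv_mk, FreeGroup.invRev]
      · rw [if_pos rfl, h3]; rfl
    · rw [List.filterMap_cons_none (by simp [hi])]
      rw [dif_neg hi] at h3
      rw [h2]
      cases b
      · rw [if_neg (by simp), map_inv, h3, inv_one, one_mul]
      · rw [if_pos rfl, h3, one_mul]

/-- The group of `relsN`. -/
abbrev QG (K : ℕ) (L : List Wd) : Type := PresentedGroup (relsN K L)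

theorem QG_of_ge {K : ℕ} {L : List Wd} {i : ℕ} (h : K ≤ i) :
    (PresentedGroup.of i : QG K L) = 1 :=
  PresentedGroup.one_of_mem (Or.inl ⟨i, h, rfl⟩)

theorem pg_iso (a : ℕ × List Wd) : Nonempty (PG a ≃* QG a.1 a.2) := by
  obtain ⟨K, L⟩ := a
  -- forward
  have hf : ∀ r ∈ relSet (K, L), FreeGroup.lift
      (fun i : Fin K => (PresentedGroup.of (i : ℕ) : QG K L)) r = 1 := by
    rintro r ⟨w, hw, rfl⟩
    have h1 : (FreeGroup.lift (fun i : Fin K => (PresentedGroup.of (i : ℕ) : QG K L))).comp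
        (cut K) = PresentedGroup.mk (relsN K L) := by
      apply FreeGroup.ext_hom
      intro i
      rw [MonoidHom.comp_apply]
      unfold cut
      rw [FreeGroup.lift_apply_of]
      by_cases hi : i < K
      · rw [dif_pos hi, FreeGroup.lift_apply_of]
        rfl
      · rw [dif_neg hi, map_one]
        exact (QG_of_ge (not_lt.1 hi)).symm
    have h2 := DFunLike.congr_fun h1 (FreeGroup.mk w)
    rw [MonoidHom.comp_apply, cut_mk] at h2
    refine h2.trans ?_
    exact PresentedGroup.one_of_mem (Or.inr ⟨w, hw, rfl⟩)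
  have hg : ∀ r ∈ relsN K L, FreeGroup.lift
      (fun i : ℕ => if h : i < K then (PresentedGroup.of (⟨i, h⟩ : Fin K) : PG (K, L)) else 1) r
      = 1 := by
    have h1 : FreeGroup.lift
        (fun i : ℕ => if h : i < K then (PresentedGroup.of (⟨i, h⟩ : Fin K) : PG (K, L)) else 1) =
        (PresentedGroup.mk (relSet (K, L))).comp (cut K) := by
      apply FreeGroup.ext_hom
      intro i
      rw [MonoidHom.comp_apply]
      unfold cut
      rw [FreeGroup.lift_apply_of, FreeGroup.lift_apply_of]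
      by_cases hi : i < K
      · rw [dif_pos hi, dif_pos hi]
        rfl
      · rw [dif_neg hi, dif_neg hi, map_one]
    rw [h1]
    rintro r (⟨i, hi, rfl⟩ | ⟨w, hw, rfl⟩)
    · rw [MonoidHom.comp_apply]
      unfold cut
      rw [FreeGroup.lift_apply_of, dif_neg (by omega), map_one]
    · rw [MonoidHom.comp_apply, cut_mk]
      exact PresentedGroup.one_of_mem ⟨w, hw, rfl⟩
  refine ⟨MonoidHom.toMulEquiv (PresentedGroup.toGroup hf) (PresentedGroup.toGroup hg) ?_ ?_⟩
  · apply PresentedGroup.ext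
    intro i
    rw [MonoidHom.comp_apply, PresentedGroup.toGroup.of, PresentedGroup.toGroup.of,
      dif_pos i.2]
    rfl
  · apply PresentedGroup.ext
    intro i
    rw [MonoidHom.comp_apply, PresentedGroup.toGroup.of]
    by_cases hi : i < K
    · rw [dif_pos hi, PresentedGroup.toGroup.of]
      rfl
    · rw [dif_neg hi, map_one]
      exact (QG_of_ge (not_lt.1 hi)).symm

/-! ### Substitution -/

/-- substitute the words `f` for the letters -/
def sub (f : List Wd) (w : Wd) : Wd :=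
  w.flatMap fun l => if l.2 = true then f.getD l.1 [] else inv (f.getD l.1 [])

theorem sub_mk {H : Type} [Group H] (π : FreeGroup ℕ →* H) (f : List Wd) (w : Wd) :
    π (FreeGroup.mk (sub f w)) =
      FreeGroup.lift (fun i => π (FreeGroup.mk (f.getD i []))) (FreeGroup.mk w) := by
  induction w with
  | nil =>
    have : sub f [] = [] := rfl
    rw [this, mk_nil', map_one, map_one]
  | cons l w ih =>
    have h1 : FreeGroup.mk (l :: w) = FreeGroup.mk [l] * FreeGroup.mk w := by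
      rw [FreeGroup.mul_mk]; rfl
    have h2 : sub f (l :: w) = (if l.2 = true then f.getD l.1 [] else inv (f.getD l.1 [])) ++
        sub f w := by
      unfold sub
      rw [List.flatMap_cons]
    rw [h1, h2, mk_app, map_mul, map_mul, ih]
    congr 1
    obtain ⟨i, b⟩ := l
    cases b
    · have h3 : (FreeGroup.mk [(i, false)] : FreeGroup ℕ) = (FreeGroup.of i)⁻¹ := by
        simp [FreeGroup.of, FreeGroup.inv_mk, FreeGroup.invRev]
      rw [if_neg (by simp), inv_eq, map_inv, h3, map_inv, FreeGroup.lift_apply_of]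
    · have h3 : (FreeGroup.mk [(i, true)] : FreeGroup ℕ) = FreeGroup.of i := rfl
      rw [if_pos rfl, h3, FreeGroup.lift_apply_of]

theorem pr_sub : Primrec₂ sub := by
  have h0 : Primrec fun q : (List Wd × Wd) × (ℕ × Bool) => (q.1.1).getD q.2.1 [] :=
    (Primrec.list_getD ([] : Wd)).comp (Primrec.fst.comp Primrec.fst)
      (Primrec.fst.comp Primrec.snd)
  have h1 : Primrec fun q : (List Wd × Wd) × (ℕ × Bool) =>
      if q.2.2 = true then (q.1.1).getD q.2.1 [] else inv ((q.1.1).getD q.2.1 []) :=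
    Primrec.ite (Primrec.eq.comp (Primrec.snd.comp Primrec.snd) (Primrec.const true)) h0
      (pr_inv.comp h0)
  exact Primrec.list_flatMap Primrec.snd h1

/-! ### The criterion -/

/-- `f`, `g` are mutually inverse. -/
def Crit (K : ℕ) (L : List Wd) (K' : ℕ) (L' : List Wd) (f g : List Wd) : Prop :=
  f.length = K ∧ g.length = K' ∧
  (∀ w ∈ L, FreeGroup.mk (sub f w) ∈ Subgroup.normalClosure (relsN K' L')) ∧
  (∀ w ∈ L', FreeGroup.mk (sub g w) ∈ Subgroup.normalClosure (relsN K L)) ∧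
  (∀ i ∈ List.range K, FreeGroup.mk (sub g (f.getD i []) ++ [(i, false)]) ∈
    Subgroup.normalClosure (relsN K L)) ∧
  ∀ i ∈ List.range K', FreeGroup.mk (sub f (g.getD i []) ++ [(i, false)]) ∈
    Subgroup.normalClosure (relsN K' L')

theorem mem_iff (K : ℕ) (L : List Wd) (x : FreeGroup ℕ) :
    x ∈ Subgroup.normalClosure (relsN K L) ↔ PresentedGroup.mk (relsN K L) x = 1 :=
  PresentedGroup.mk_eq_one_iff.symm

theorem mk_app_inv (w : Wd) (i : ℕ) : (FreeGroup.mk (w ++ [(i, false)]) : FreeGroup ℕ) =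
    FreeGroup.mk w * (FreeGroup.of i)⁻¹ := by
  rw [mk_app]
  congr 1

theorem iso_of_crit {K : ℕ} {L : List Wd} {K' : ℕ} {L' : List Wd} {f g : List Wd}
    (h : Crit K L K' L' f g) : Nonempty (QG K L ≃* QG K' L') := by
  obtain ⟨hf, hg, h1, h2, h3, h4⟩ := h
  have aux : ∀ (K : ℕ) (L : List Wd) (K' : ℕ) (L' : List Wd) (f : List Wd), f.length = K →
      (∀ w ∈ L, FreeGroup.mk (sub f w) ∈ Subgroup.normalClosure (relsN K' L')) →
      ∀ r ∈ relsN K L, FreeGroup.lift
        (fun i => PresentedGroup.mk (relsN K' L') (FreeGroup.mk (f.getD i []))) r = 1 := by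
    intro K L K' L' f hf h1
    rintro r (⟨i, hi, rfl⟩ | ⟨w, hw, rfl⟩)
    · rw [FreeGroup.lift_apply_of, List.getD_eq_default _ _ (by omega), mk_nil', map_one]
    · rw [← sub_mk, ← mem_iff]
      exact h1 w hw
  have e1 := aux K L K' L' f hf h1
  have e2 := aux K' L' K L g hg h2
  have aux2 : ∀ (K : ℕ) (L : List Wd) (K' : ℕ) (L' : List Wd) (f g : List Wd),
      (∀ i ∈ List.range K, FreeGroup.mk (sub g (f.getD i []) ++ [(i, false)]) ∈
        Subgroup.normalClosure (relsN K L)) →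
      ∀ (e1 : ∀ r ∈ relsN K L, FreeGroup.lift
        (fun i => PresentedGroup.mk (relsN K' L') (FreeGroup.mk (f.getD i []))) r = 1)
      (e2 : ∀ r ∈ relsN K' L', FreeGroup.lift
        (fun i => PresentedGroup.mk (relsN K L) (FreeGroup.mk (g.getD i []))) r = 1),
      (PresentedGroup.toGroup e2).comp (PresentedGroup.toGroup e1) = MonoidHom.id _ := by
    intro K L K' L' f g h3 e1 e2
    apply PresentedGroup.ext
    intro i
    rw [MonoidHom.comp_apply, PresentedGroup.toGroup.of, MonoidHom.id_apply]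
    by_cases hi : i < K
    · have h5 := h3 i (List.mem_range.2 hi)
      rw [mk_app_inv, mem_iff, map_mul, map_inv, mul_inv_eq_one, sub_mk] at h5
      have h6 : (PresentedGroup.toGroup e2) (PresentedGroup.mk (relsN K' L')
          (FreeGroup.mk (f.getD i []))) = FreeGroup.lift
          (fun i => PresentedGroup.mk (relsN K L) (FreeGroup.mk (g.getD i [])))
          (FreeGroup.mk (f.getD i [])) := rfl
      rw [h6, h5]
      rfl
    · have h7 : (PresentedGroup.of i : QG K L) = 1 := QG_of_ge (not_lt.1 hi)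
      have h8 : (PresentedGroup.toGroup e1) (PresentedGroup.of i) = 1 := by rw [h7, map_one]
      rw [PresentedGroup.toGroup.of] at h8
      rw [h8, map_one, h7]
  exact ⟨MonoidHom.toMulEquiv (PresentedGroup.toGroup e1) (PresentedGroup.toGroup e2)
    (aux2 K L K' L' f g h3 e1 e2) (aux2 K' L' K L g f h4 e2 e1)⟩

theorem crit_of_iso {K : ℕ} {L : List Wd} {K' : ℕ} {L' : List Wd}
    (e : QG K L ≃* QG K' L') : ∃ f g : List Wd, Crit K L K' L' f g := by
  have aux : ∀ (K : ℕ) (L : List Wd) (K' : ℕ) (L' : List Wd) (φ : QG K L →* QG K' L'),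
      ∃ f : List Wd, f.length = K ∧ ∀ i, PresentedGroup.mk (relsN K' L')
        (FreeGroup.mk (f.getD i [])) = φ (PresentedGroup.of i) := by
    intro K L K' L' φ
    have h1 : ∀ i : ℕ, ∃ w : Wd, PresentedGroup.mk (relsN K' L') (FreeGroup.mk w) =
        φ (PresentedGroup.of i) := by
      intro i
      obtain ⟨x, hx⟩ := PresentedGroup.mk_surjective (relsN K' L') (φ (PresentedGroup.of i))
      exact ⟨x.toWord, by rw [FreeGroup.mk_toWord, hx]⟩
    choose F hF using h1
    refine ⟨(List.range K).map F, by simp, fun i => ?_⟩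
    by_cases hi : i < K
    · rw [← hF i]
      congr 2
      simp [List.getD_eq_getElem?_getD, hi]
    · rw [List.getD_eq_default _ _ (by simpa using not_lt.1 hi), mk_nil', map_one,
        QG_of_ge (not_lt.1 hi), map_one]
  obtain ⟨f, hf, hf'⟩ := aux K L K' L' e.toMonoidHom
  obtain ⟨g, hg, hg'⟩ := aux K' L' K L e.symm.toMonoidHom
  have hF : ∀ w : Wd, PresentedGroup.mk (relsN K' L') (FreeGroup.mk (sub f w)) =
      e (PresentedGroup.mk (relsN K L) (FreeGroup.mk w)) := by
    intro w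
    rw [sub_mk]
    have : FreeGroup.lift (fun i => PresentedGroup.mk (relsN K' L') (FreeGroup.mk (f.getD i [])))
        = e.toMonoidHom.comp (PresentedGroup.mk (relsN K L)) := by
      apply FreeGroup.ext_hom
      intro i
      rw [FreeGroup.lift_apply_of, hf' i]
      rfl
    rw [this]
    rfl
  have hG : ∀ w : Wd, PresentedGroup.mk (relsN K L) (FreeGroup.mk (sub g w)) =
      e.symm (PresentedGroup.mk (relsN K' L') (FreeGroup.mk w)) := by
    intro w
    rw [sub_mk]
    have : FreeGroup.lift (fun i => PresentedGroup.mk (relsN K L) (FreeGroup.mk (g.getD i [])))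
        = e.symm.toMonoidHom.comp (PresentedGroup.mk (relsN K' L')) := by
      apply FreeGroup.ext_hom
      intro i
      rw [FreeGroup.lift_apply_of, hg' i]
      rfl
    rw [this]
    rfl
  refine ⟨f, g, hf, hg, ?_, ?_, ?_, ?_⟩
  · intro w hw
    rw [mem_iff, hF, PresentedGroup.one_of_mem (Or.inr ⟨w, hw, rfl⟩), map_one]
  · intro w hw
    rw [mem_iff, hG, PresentedGroup.one_of_mem (Or.inr ⟨w, hw, rfl⟩), map_one]
  · intro i _
    rw [mem_iff, mk_app_inv, map_mul, map_inv, mul_inv_eq_one, hG, hf' i]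
    show e.symm (e (PresentedGroup.of i)) = _
    rw [MulEquiv.symm_apply_apply]
    rfl
  · intro i _
    rw [mem_iff, mk_app_inv, map_mul, map_inv, mul_inv_eq_one, hF, hg' i]
    show e (e.symm (PresentedGroup.of i)) = _
    rw [MulEquiv.apply_symm_apply]
    rfl

/-! ### Certificates -/

/-- Certificates. -/
abbrev Cert : Type := (List Wd × List Wd) × List Der

/-- The decidable predicate. -/
def Chk (p : (ℕ × List Wd) × (ℕ × List Wd)) (c : Cert) : Prop :=
  (c.1.1.length = p.1.1 ∧ c.1.2.length = p.2.1) ∧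
  ((∀ w ∈ p.1.2, ∃ d ∈ c.2, IsDer p.2.1 p.2.2 (sub c.1.1 w) d) ∧
  (∀ w ∈ p.2.2, ∃ d ∈ c.2, IsDer p.1.1 p.1.2 (sub c.1.2 w) d)) ∧
  ((∀ i ∈ List.range p.1.1, ∃ d ∈ c.2,
    IsDer p.1.1 p.1.2 (sub c.1.2 (c.1.1.getD i []) ++ [(i, false)]) d) ∧
  ∀ i ∈ List.range p.2.1, ∃ d ∈ c.2,
    IsDer p.2.1 p.2.2 (sub c.1.1 (c.1.2.getD i []) ++ [(i, false)]) d)

theorem chk_of_crit {p : (ℕ × List Wd) × (ℕ × List Wd)} {f g : List Wd}
    (h : Crit p.1.1 p.1.2 p.2.1 p.2.2 f g) : ∃ c, Chk p c := by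
  obtain ⟨hf, hg, h1, h2, h3, h4⟩ := h
  have hex : ∀ {β : Type} (K : ℕ) (L : List Wd) (B : List β) (F : β → Wd),
      (∀ b ∈ B, FreeGroup.mk (F b) ∈ Subgroup.normalClosure (relsN K L)) →
      ∃ D : List Der, ∀ b ∈ B, ∃ d ∈ D, IsDer K L (F b) d := by
    intro β K L B F h
    have h' : ∀ b, ∃ d, b ∈ B → IsDer K L (F b) d := by
      intro b
      by_cases hb : b ∈ B
      · obtain ⟨d, hd⟩ := (der_iff K L (F b)).1 (h b hb)
        exact ⟨d, fun _ => hd⟩
      · exact ⟨[], fun h2 => absurd h2 hb⟩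
    choose D hD using h'
    exact ⟨B.map D, fun b hb => ⟨D b, List.mem_map.2 ⟨b, hb, rfl⟩, hD b hb⟩⟩
  obtain ⟨D1, hD1⟩ := hex p.2.1 p.2.2 p.1.2 (fun w => sub f w) h1
  obtain ⟨D2, hD2⟩ := hex p.1.1 p.1.2 p.2.2 (fun w => sub g w) h2
  obtain ⟨D3, hD3⟩ := hex p.1.1 p.1.2 (List.range p.1.1)
    (fun i => sub g (f.getD i []) ++ [(i, false)]) h3
  obtain ⟨D4, hD4⟩ := hex p.2.1 p.2.2 (List.range p.2.1)
    (fun i => sub f (g.getD i []) ++ [(i, false)]) h4
  refine ⟨((f, g), D1 ++ D2 ++ D3 ++ D4), ⟨hf, hg⟩, ⟨?_, ?_⟩, ?_, ?_⟩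
  · intro w hw
    obtain ⟨d, hd, h⟩ := hD1 w hw
    exact ⟨d, by simp [hd], h⟩
  · intro w hw
    obtain ⟨d, hd, h⟩ := hD2 w hw
    exact ⟨d, by simp [hd], h⟩
  · intro w hw
    obtain ⟨d, hd, h⟩ := hD3 w hw
    exact ⟨d, by simp [hd], h⟩
  · intro w hw
    obtain ⟨d, hd, h⟩ := hD4 w hw
    exact ⟨d, by simp [hd], h⟩

theorem crit_of_chk {p : (ℕ × List Wd) × (ℕ × List Wd)} {c : Cert} (h : Chk p c) :
    Crit p.1.1 p.1.2 p.2.1 p.2.2 c.1.1 c.1.2 := by
  obtain ⟨⟨hf, hg⟩, ⟨h1, h2⟩, h3, h4⟩ := h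
  refine ⟨hf, hg, ?_, ?_, ?_, ?_⟩
  · intro w hw
    obtain ⟨d, -, h⟩ := h1 w hw
    exact (der_iff _ _ _).2 ⟨d, h⟩
  · intro w hw
    obtain ⟨d, -, h⟩ := h2 w hw
    exact (der_iff _ _ _).2 ⟨d, h⟩
  · intro w hw
    obtain ⟨d, -, h⟩ := h3 w hw
    exact (der_iff _ _ _).2 ⟨d, h⟩
  · intro w hw
    obtain ⟨d, -, h⟩ := h4 w hw
    exact (der_iff _ _ _).2 ⟨d, h⟩


end Pool.Agent.Y858.ISO.RE
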