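import Mathlib
import Pool.Agent.Y858.ISO.REa

set_option autoImplicit false

/-!
Isomorphism of finitely presented groups is computably enumerable.
-/

namespace Pool.Agent.Y858.ISO.RE

open Pool.Agent.H665Simp Pool.Agent.Y817.ISO

theorem pp_block {α β : Type} [Primcodable α] [Primcodable β] {B : α → List β} {D : α → List Der}
    {K : α → ℕ} {L : α → List Wd} {F : α × β → Wd} (hB : Primrec B) (hD : Primrec D)
    (hK : Primrec K) (hL : Primrec L) (hF : Primrec F) :
    PrimrecPred fun a => ∀ b ∈ B a, ∃ d ∈ D a, IsDer (K a) (L a) (F (a, b)) d := by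
  refine pp_forall (f := B) (P := fun a b => ∃ d ∈ D a, IsDer (K a) (L a) (F (a, b)) d) hB ?_
  refine pp_exists (f := fun p : α × β => D p.1)
    (P := fun p d => IsDer (K p.1) (L p.1) (F (p.1, p.2)) d) (hD.comp Primrec.fst) ?_
  have hF' : Primrec fun q : (α × β) × Der => F (q.1.1, q.1.2) :=
    hF.comp (Primrec.pair (Primrec.fst.comp Primrec.fst) (Primrec.snd.comp Primrec.fst))
  exact PrimrecPred.comp pp_isDer (Primrec.pair
    (Primrec.pair (hK.comp (Primrec.fst.comp Primrec.fst))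
      (hL.comp (Primrec.fst.comp Primrec.fst)))
    (Primrec.pair hF' Primrec.snd))

/-- Inputs. -/
abbrev Inp : Type := ((ℕ × List Wd) × (ℕ × List Wd)) × Cert

theorem hK : Primrec fun q : Inp => q.1.1.1 :=
  Primrec.fst.comp (Primrec.fst.comp Primrec.fst)
theorem hL : Primrec fun q : Inp => q.1.1.2 :=
  Primrec.snd.comp (Primrec.fst.comp Primrec.fst)
theorem hK' : Primrec fun q : Inp => q.1.2.1 :=
  Primrec.fst.comp (Primrec.snd.comp Primrec.fst)
theorem hL' : Primrec fun q : Inp => q.1.2.2 :=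
  Primrec.snd.comp (Primrec.snd.comp Primrec.fst)
theorem hf : Primrec fun q : Inp => q.2.1.1 :=
  Primrec.fst.comp (Primrec.fst.comp Primrec.snd)
theorem hg : Primrec fun q : Inp => q.2.1.2 :=
  Primrec.snd.comp (Primrec.fst.comp Primrec.snd)
theorem hD : Primrec fun q : Inp => q.2.2 :=
  Primrec.snd.comp Primrec.snd
theorem hsing : Primrec fun i : ℕ => ([(i, false)] : Wd) :=
  Primrec.list_cons.comp (Primrec.pair Primrec.id (Primrec.const false)) (Primrec.const [])

theorem pp_sub {α : Type} [Primcodable α] {f : α → List Wd} (hf : Primrec f) :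
    Primrec fun q : α × Wd => sub (f q.1) q.2 :=
  pr_sub.comp (hf.comp Primrec.fst) Primrec.snd

theorem pp_sub2 {α : Type} [Primcodable α] {f g : α → List Wd} (hf : Primrec f) (hg : Primrec g) :
    Primrec fun q : α × ℕ => sub (g q.1) ((f q.1).getD q.2 []) ++ [(q.2, false)] := by
  have h1 : Primrec fun q : α × ℕ => (f q.1).getD q.2 [] :=
    (Primrec.list_getD ([] : Wd)).comp (hf.comp Primrec.fst) Primrec.snd
  have h2 : Primrec fun q : α × ℕ => sub (g q.1) ((f q.1).getD q.2 []) :=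
    pr_sub.comp (hg.comp Primrec.fst) h1
  exact Primrec.list_append.comp h2 (hsing.comp Primrec.snd)

theorem pp_chk : PrimrecPred fun q : Inp => Chk q.1 q.2 := by
  have b1 : PrimrecPred fun q : Inp => q.2.1.1.length = q.1.1.1 :=
    Primrec.eq.comp (Primrec.list_length.comp hf) hK
  have b2 : PrimrecPred fun q : Inp => q.2.1.2.length = q.1.2.1 :=
    Primrec.eq.comp (Primrec.list_length.comp hg) hK'
  have b3 : PrimrecPred fun q : Inp => ∀ w ∈ q.1.1.2, ∃ d ∈ q.2.2,
      IsDer q.1.2.1 q.1.2.2 (sub q.2.1.1 w) d :=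
    pp_block (B := fun q : Inp => q.1.1.2) (D := fun q : Inp => q.2.2)
      (K := fun q : Inp => q.1.2.1) (L := fun q : Inp => q.1.2.2)
      (F := fun q : Inp × Wd => sub q.1.2.1.1 q.2) hL hD hK' hL' (pp_sub hf)
  have b4 : PrimrecPred fun q : Inp => ∀ w ∈ q.1.2.2, ∃ d ∈ q.2.2,
      IsDer q.1.1.1 q.1.1.2 (sub q.2.1.2 w) d :=
    pp_block (B := fun q : Inp => q.1.2.2) (D := fun q : Inp => q.2.2)
      (K := fun q : Inp => q.1.1.1) (L := fun q : Inp => q.1.1.2)
      (F := fun q : Inp × Wd => sub q.1.2.1.2 q.2) hL' hD hK hL (pp_sub hg)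
  have b5 : PrimrecPred fun q : Inp => ∀ i ∈ List.range q.1.1.1, ∃ d ∈ q.2.2,
      IsDer q.1.1.1 q.1.1.2 (sub q.2.1.2 (q.2.1.1.getD i []) ++ [(i, false)]) d :=
    pp_block (B := fun q : Inp => List.range q.1.1.1) (D := fun q : Inp => q.2.2)
      (K := fun q : Inp => q.1.1.1) (L := fun q : Inp => q.1.1.2)
      (F := fun q : Inp × ℕ => sub q.1.2.1.2 (q.1.2.1.1.getD q.2 []) ++ [(q.2, false)])
      (Primrec.list_range.comp hK) hD hK hL (pp_sub2 hf hg)
  have b6 : PrimrecPred fun q : Inp => ∀ i ∈ List.range q.1.2.1, ∃ d ∈ q.2.2,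
      IsDer q.1.2.1 q.1.2.2 (sub q.2.1.1 (q.2.1.2.getD i []) ++ [(i, false)]) d :=
    pp_block (B := fun q : Inp => List.range q.1.2.1) (D := fun q : Inp => q.2.2)
      (K := fun q : Inp => q.1.2.1) (L := fun q : Inp => q.1.2.2)
      (F := fun q : Inp × ℕ => sub q.1.2.1.1 (q.1.2.1.2.getD q.2 []) ++ [(q.2, false)])
      (Primrec.list_range.comp hK') hD hK' hL' (pp_sub2 hg hf)
  exact (b1.and b2).and ((b3.and b4).and (b5.and b6))

/-- Projection of a computable relation is r.e. -/
theorem rePred_exists {α : Type} [Primcodable α] {R : α → ℕ → Bool} (hR : Computable₂ R) :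
    REPred (fun a => ∃ n, R a n = true) := by
  have hp : Partrec (fun a : α => Nat.rfind ((fun s => R a s : ℕ → Bool) : ℕ →. Bool)) :=
    Partrec.rfind hR.partrec₂
  refine REPred.of_eq hp.dom_re ?_
  intro a
  refine Nat.rfind_dom.trans ?_
  constructor
  · rintro ⟨s, hs, -⟩
    exact ⟨s, by simpa using hs⟩
  · rintro ⟨s, hs⟩
    exact ⟨s, by simpa using hs, fun _ => trivial⟩

/-- Isomorphism of finite presentations is computably enumerable. -/
theorem t : Pool.Agent.Y817.ISO.StmRE := by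
  classical
  unfold Pool.Agent.Y817.ISO.StmRE
  let R : ((ℕ × List Wd) × (ℕ × List Wd)) → ℕ → Bool := fun p n =>
    decide (Chk p ((Encodable.decode n : Option Cert).getD (([], []), [])))
  have hR : Primrec₂ R := by
    have h1 : PrimrecPred fun q : ((ℕ × List Wd) × (ℕ × List Wd)) × ℕ =>
        Chk q.1 ((Encodable.decode q.2 : Option Cert).getD (([], []), [])) :=
      PrimrecPred.comp pp_chk (Primrec.pair Primrec.fst
        (Primrec.option_getD.comp (Primrec.decode.comp Primrec.snd) (Primrec.const _)))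
    obtain ⟨inst, h⟩ := h1
    refine Primrec.of_eq h (fun q => ?_)
    simp only [R]
    congr
  refine REPred.of_eq (rePred_exists hR.to_comp) ?_
  intro p
  obtain ⟨e1⟩ := pg_iso p.1
  obtain ⟨e2⟩ := pg_iso p.2
  constructor
  · rintro ⟨n, hn⟩
    have h1 := crit_of_chk (of_decide_eq_true hn)
    obtain ⟨e⟩ := iso_of_crit h1
    exact ⟨(e1.trans e).trans e2.symm⟩
  · rintro ⟨e⟩
    obtain ⟨f, g, h⟩ := crit_of_iso ((e1.symm.trans e).trans e2)
    obtain ⟨c, hc⟩ := chk_of_crit h
    refine ⟨Encodable.encode c, decide_eq_true ?_⟩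
    rw [Encodable.encodek]
    exact hc

end Pool.Agent.Y858.ISO.RE
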